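import Mathlib
/-!
# F+: the trace inequality and the triangle identity
-/
set_option autoImplicit false
namespace Pool.Agent.Helper49.HM
open Matrix Finset MeasureTheory
open scoped ComplexOrder ComplexConjugate

section Mat
variable {ι : Type*} [Fintype ι] [DecidableEq ι]

open scoped MatrixOrder Matrix.Norms.L2Operator in
lemma exists_root' {E : Matrix ι ι ℂ} (hE : E.PosSemidef) : ∃ Y : Matrix ι ι ℂ, E = Yᴴ * Y :=
  CStarAlgebra.nonneg_iff_eq_star_mul_self.mp hE.nonneg

/-- `(Tr EH)² ≤ n Tr (EH)²`. -/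
theorem trace_rank {E H : Matrix ι ι ℂ} (hE : E.PosSemidef) (hH : Hᴴ = H) :
    ((E * H).trace.re) ^ 2 ≤ (Fintype.card ι : ℝ) * (E * H * (E * H)).trace.re := by
  obtain ⟨Y, hY⟩ := exists_root' hE
  set X := Y * H * Yᴴ with hX
  have h1 : (E * H).trace = X.trace := by
    rw [hY, hX, Matrix.mul_assoc, Matrix.trace_mul_comm, Matrix.mul_assoc]
  have h2 : (E * H * (E * H)).trace = (Xᴴ * X).trace := by
    have hXh : Xᴴ = X := by
      rw [hX, conjTranspose_mul, conjTranspose_mul, conjTranspose_conjTranspose, hH,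
        Matrix.mul_assoc]
    rw [hXh, hY, hX]
    have e1 : Yᴴ * Y * H * (Yᴴ * Y * H) = Yᴴ * (Y * H * Yᴴ * Y * H) := by
      simp only [Matrix.mul_assoc]
    rw [e1, Matrix.trace_mul_comm]
    congr 1
    simp only [Matrix.mul_assoc]
  rw [h1, h2]
  have h3 : (Xᴴ * X).trace.re = ∑ i, ∑ j, ‖X j i‖ ^ 2 := by
    rw [Matrix.trace, Complex.re_sum]
    refine sum_congr rfl fun i _ => ?_
    rw [Matrix.diag_apply, Matrix.mul_apply, Complex.re_sum]
    refine sum_congr rfl fun j _ => ?_
    rw [conjTranspose_apply, RCLike.star_def, Complex.conj_mul', ← Complex.ofReal_pow,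
      Complex.ofReal_re]
  rw [h3]
  calc (X.trace.re) ^ 2 = (∑ i, (X i i).re) ^ 2 := by rw [Matrix.trace, Complex.re_sum]; rfl
    _ ≤ (Fintype.card ι : ℝ) * ∑ i, ((X i i).re) ^ 2 := by
        have := sq_sum_le_card_mul_sum_sq (s := (univ : Finset ι)) (f := fun i => (X i i).re)
        rwa [card_univ] at this
    _ ≤ (Fintype.card ι : ℝ) * ∑ i, ∑ j, ‖X j i‖ ^ 2 := by
        apply mul_le_mul_of_nonneg_left _ (Nat.cast_nonneg _)
        refine sum_le_sum fun i _ => ?_
        calc ((X i i).re) ^ 2 ≤ ‖X i i‖ ^ 2 := by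
              rw [← sq_abs]
              exact pow_le_pow_left₀ (abs_nonneg _) (Complex.abs_re_le_norm _) 2
          _ ≤ ∑ j, ‖X j i‖ ^ 2 := single_le_sum (f := fun j => ‖X j i‖ ^ 2)
              (fun j _ => by positivity) (mem_univ i)

end Mat

/-- The triangle of half width `θ` around `d`. -/
noncomputable def tri (θ d w : ℝ) : ℝ := max 0 (θ - |w - d|)

lemma tri_nonneg (θ d w : ℝ) : 0 ≤ tri θ d w := le_max_left _ _

lemma tri_cont (θ d : ℝ) : Continuous (tri θ d) := by unfold tri; fun_prop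

lemma tri_zero {θ d w : ℝ} (h : θ ≤ |w - d|) : tri θ d w = 0 := max_eq_left (by linarith)

lemma tri_integral {θ d : ℝ} (hθ : 0 ≤ θ) {f : ℝ → ℂ} (_hf : Continuous f) :
    ∫ w, ((tri θ d w : ℝ) : ℂ) * f w =
      ∫ w in (d - θ)..(d + θ), ((tri θ d w : ℝ) : ℂ) * f w := by
  rw [intervalIntegral.integral_of_le (by linarith), ← integral_indicator measurableSet_Ioc]
  refine integral_congr_ae (Filter.Eventually.of_forall fun w => ?_)
  simp only
  by_cases hw : w ∈ Set.Ioc (d - θ) (d + θ)
  · rw [Set.indicator_of_mem hw]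
  · rw [Set.indicator_of_notMem hw]
    have : tri θ d w = 0 := by
      apply tri_zero
      rw [Set.mem_Ioc, not_and_or, not_lt, not_le] at hw
      rcases hw with h | h
      · rw [abs_of_nonpos (by linarith)]; linarith
      · rw [abs_of_nonneg (by linarith)]; linarith
    rw [this]; simp

/-- The triangle identity. -/
theorem tri_exp {θ : ℝ} (hθ : 0 ≤ θ) (p q : ℝ) (μ : ℂ) :
    (∫ x in p..(p + θ), Complex.exp ((x : ℂ) * μ)) * (∫ y in q..(q + θ), Complex.exp ((y : ℂ) * (-μ))) =
      ∫ w, ((tri θ (p - q) w : ℝ) : ℂ) * Complex.exp ((w : ℂ) * μ) := by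
  set d := p - q with hd
  have hfc : Continuous fun w : ℝ => Complex.exp ((w : ℂ) * μ) := by fun_prop
  rw [tri_integral hθ hfc]
  have hint : ∀ a b, IntervalIntegrable (fun w : ℝ => ((tri θ d w : ℝ) : ℂ) * Complex.exp ((w : ℂ) * μ))
      volume a b := fun a b =>
    ((Complex.continuous_ofReal.comp (tri_cont θ d)).mul hfc).intervalIntegrable _ _
  rw [← intervalIntegral.integral_add_adjacent_intervals (hint (d - θ) d) (hint d (d + θ))]
  have e1 : ∫ w in (d - θ)..d, ((tri θ d w : ℝ) : ℂ) * Complex.exp ((w : ℂ) * μ) =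
      ∫ w in (d - θ)..d, (((θ + w - d : ℝ)) : ℂ) * Complex.exp ((w : ℂ) * μ) := by
    apply intervalIntegral.integral_congr
    intro w hw
    rw [Set.uIcc_of_le (by linarith)] at hw
    have : tri θ d w = θ + w - d := by
      unfold tri
      rw [abs_of_nonpos (by linarith [hw.2]), max_eq_right (by linarith [hw.1])]
      ring
    simp only [this]
  have e2 : ∫ w in d..(d + θ), ((tri θ d w : ℝ) : ℂ) * Complex.exp ((w : ℂ) * μ) =
      ∫ w in d..(d + θ), (((θ - w + d : ℝ)) : ℂ) * Complex.exp ((w : ℂ) * μ) := by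
    apply intervalIntegral.integral_congr
    intro w hw
    rw [Set.uIcc_of_le (by linarith)] at hw
    have : tri θ d w = θ - w + d := by
      unfold tri
      rw [abs_of_nonneg (by linarith [hw.1]), max_eq_right (by linarith [hw.2])]
      ring
    simp only [this]
  rw [e1, e2]
  by_cases hμ : μ = 0
  · subst hμ
    simp only [mul_zero, neg_zero, Complex.exp_zero, mul_one, intervalIntegral.integral_const]
    have i1 : ∫ w in (d - θ)..d, (((θ + w - d : ℝ)) : ℂ) = ((θ ^ 2 / 2 : ℝ) : ℂ) := by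
      rw [intervalIntegral.integral_ofReal]
      congr 1
      have h : ∀ x : ℝ, HasDerivAt (fun x : ℝ => (θ + x - d) ^ 2 / 2) (θ + x - d) x := by
        intro x
        have := ((((hasDerivAt_id x).const_add θ).sub_const d).pow 2).div_const 2
        refine this.congr_deriv ?_
        simp
      rw [intervalIntegral.integral_eq_sub_of_hasDerivAt (fun x _ => h x)
        ((by fun_prop : Continuous fun x : ℝ => θ + x - d).intervalIntegrable _ _)]
      ring
    have i2 : ∫ w in d..(d + θ), (((θ - w + d : ℝ)) : ℂ) = ((θ ^ 2 / 2 : ℝ) : ℂ) := by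
      rw [intervalIntegral.integral_ofReal]
      congr 1
      have h : ∀ x : ℝ, HasDerivAt (fun x : ℝ => -(θ - x + d) ^ 2 / 2) (θ - x + d) x := by
        intro x
        have := ((((hasDerivAt_id x).const_sub θ).add_const d).pow 2).neg.div_const 2
        refine this.congr_deriv ?_
        simp
      rw [intervalIntegral.integral_eq_sub_of_hasDerivAt (fun x _ => h x)
        ((by fun_prop : Continuous fun x : ℝ => θ - x + d).intervalIntegrable _ _)]
      ring
    rw [i1, i2]
    simp
    ring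
  · have hE : ∀ x : ℝ, HasDerivAt (fun x : ℝ => Complex.exp ((x : ℂ) * μ)) (Complex.exp ((x : ℂ) * μ) * μ) x := by
      intro x
      have h1 : HasDerivAt (fun x : ℝ => (x : ℂ) * μ) μ x := by
        simpa using (Complex.ofRealCLM.hasDerivAt (x := x)).mul_const μ
      exact h1.cexp
    have hx : ∀ x : ℝ, HasDerivAt (fun x : ℝ => (x : ℂ)) 1 x := fun x => by
      simpa using (hasDerivAt_id x).ofReal_comp
    have j1 : ∫ x in p..(p + θ), Complex.exp ((x : ℂ) * μ) =
        (Complex.exp (((p + θ : ℝ) : ℂ) * μ) - Complex.exp ((p : ℂ) * μ)) / μ := by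
      have h : ∀ x : ℝ, HasDerivAt (fun x : ℝ => Complex.exp ((x : ℂ) * μ) / μ)
          (Complex.exp ((x : ℂ) * μ)) x := by
        intro x
        refine ((hE x).div_const μ).congr_deriv ?_
        field_simp
      rw [intervalIntegral.integral_eq_sub_of_hasDerivAt (fun x _ => h x) (hfc.intervalIntegrable _ _)]
      ring
    have j2 : ∫ y in q..(q + θ), Complex.exp ((y : ℂ) * (-μ)) =
        (Complex.exp ((q : ℂ) * (-μ)) - Complex.exp (((q + θ : ℝ) : ℂ) * (-μ))) / μ := by
      have h : ∀ x : ℝ, HasDerivAt (fun x : ℝ => -(Complex.exp ((x : ℂ) * (-μ)) / μ))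
          (Complex.exp ((x : ℂ) * (-μ))) x := by
        intro x
        have h1 : HasDerivAt (fun x : ℝ => (x : ℂ) * (-μ)) (-μ) x := by
          simpa using (Complex.ofRealCLM.hasDerivAt (x := x)).mul_const (-μ)
        refine ((h1.cexp.div_const μ).neg).congr_deriv ?_
        field_simp
      rw [intervalIntegral.integral_eq_sub_of_hasDerivAt (fun x _ => h x)
        ((by fun_prop : Continuous fun y : ℝ => Complex.exp ((y : ℂ) * (-μ))).intervalIntegrable _ _)]
      ring
    have j3 : ∫ w in (d - θ)..d, (((θ + w - d : ℝ)) : ℂ) * Complex.exp ((w : ℂ) * μ) =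
        (θ : ℂ) * Complex.exp ((d : ℂ) * μ) / μ - Complex.exp ((d : ℂ) * μ) / μ ^ 2 +
          Complex.exp (((d - θ : ℝ) : ℂ) * μ) / μ ^ 2 := by
      have h : ∀ x : ℝ, HasDerivAt (fun x : ℝ => ((θ : ℂ) + x - d) * (Complex.exp ((x : ℂ) * μ) / μ) -
          Complex.exp ((x : ℂ) * μ) / μ ^ 2)
          ((((θ + x - d : ℝ)) : ℂ) * Complex.exp ((x : ℂ) * μ)) x := by
        intro x
        have h1 := ((((hx x).const_add (θ : ℂ)).sub_const (d : ℂ)).mul ((hE x).div_const μ)).sub
          ((hE x).div_const (μ ^ 2))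
        refine h1.congr_deriv ?_
        push_cast
        field_simp
        ring
      rw [intervalIntegral.integral_eq_sub_of_hasDerivAt (fun x _ => h x)
        ((by fun_prop : Continuous fun w : ℝ => (((θ + w - d : ℝ)) : ℂ) * Complex.exp ((w : ℂ) * μ)).intervalIntegrable _ _)]
      push_cast
      ring
    have j4 : ∫ w in d..(d + θ), (((θ - w + d : ℝ)) : ℂ) * Complex.exp ((w : ℂ) * μ) =
        Complex.exp (((d + θ : ℝ) : ℂ) * μ) / μ ^ 2 - (θ : ℂ) * Complex.exp ((d : ℂ) * μ) / μ -
          Complex.exp ((d : ℂ) * μ) / μ ^ 2 := by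
      have h : ∀ x : ℝ, HasDerivAt (fun x : ℝ => ((θ : ℂ) - x + d) * (Complex.exp ((x : ℂ) * μ) / μ) +
          Complex.exp ((x : ℂ) * μ) / μ ^ 2)
          ((((θ - x + d : ℝ)) : ℂ) * Complex.exp ((x : ℂ) * μ)) x := by
        intro x
        have h1 := ((((hx x).const_sub (θ : ℂ)).add_const (d : ℂ)).mul ((hE x).div_const μ)).add
          ((hE x).div_const (μ ^ 2))
        refine h1.congr_deriv ?_
        push_cast
        field_simp
        ring
      rw [intervalIntegral.integral_eq_sub_of_hasDerivAt (fun x _ => h x)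
        ((by fun_prop : Continuous fun w : ℝ => (((θ - w + d : ℝ)) : ℂ) * Complex.exp ((w : ℂ) * μ)).intervalIntegrable _ _)]
      push_cast
      ring
    rw [j1, j2, j3, j4]
    have k1 : Complex.exp (((p + θ : ℝ) : ℂ) * μ) * Complex.exp ((q : ℂ) * (-μ)) =
        Complex.exp (((d + θ : ℝ) : ℂ) * μ) := by
      rw [← Complex.exp_add]; congr 1; rw [hd]; push_cast; ring
    have k2 : Complex.exp (((p + θ : ℝ) : ℂ) * μ) * Complex.exp (((q + θ : ℝ) : ℂ) * (-μ)) =
        Complex.exp ((d : ℂ) * μ) := by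
      rw [← Complex.exp_add]; congr 1; rw [hd]; push_cast; ring
    have k3 : Complex.exp ((p : ℂ) * μ) * Complex.exp ((q : ℂ) * (-μ)) =
        Complex.exp ((d : ℂ) * μ) := by
      rw [← Complex.exp_add]; congr 1; rw [hd]; push_cast; ring
    have k4 : Complex.exp ((p : ℂ) * μ) * Complex.exp (((q + θ : ℝ) : ℂ) * (-μ)) =
        Complex.exp (((d - θ : ℝ) : ℂ) * μ) := by
      rw [← Complex.exp_add]; congr 1; rw [hd]; push_cast; ring
    calc (Complex.exp (((p + θ : ℝ) : ℂ) * μ) - Complex.exp ((p : ℂ) * μ)) / μ *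
          ((Complex.exp ((q : ℂ) * (-μ)) - Complex.exp (((q + θ : ℝ) : ℂ) * (-μ))) / μ)
        = (Complex.exp (((p + θ : ℝ) : ℂ) * μ) * Complex.exp ((q : ℂ) * (-μ)) -
            Complex.exp (((p + θ : ℝ) : ℂ) * μ) * Complex.exp (((q + θ : ℝ) : ℂ) * (-μ)) -
            Complex.exp ((p : ℂ) * μ) * Complex.exp ((q : ℂ) * (-μ)) +
            Complex.exp ((p : ℂ) * μ) * Complex.exp (((q + θ : ℝ) : ℂ) * (-μ))) / μ ^ 2 := by
          field_simp
          ring
      _ = _ := by
          rw [k1, k2, k3, k4]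
          ring

end Pool.Agent.Helper49.HM
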