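import Pool.Agent.Helper49.HM.FPa
/-!
# F+: the family inequality for exponential sums with reflected frequencies
-/
set_option autoImplicit false
namespace Pool.Agent.Helper49.HM
open Matrix Finset MeasureTheory
open scoped ComplexOrder ComplexConjugate

variable {ι κ : Type*} [Fintype ι] [DecidableEq ι] [Fintype κ]

/-- `∑_k ∫_{p_k}^{p_k+θ} e^{xμ} dx`. -/
noncomputable def KK (p : κ → ℝ) (θ : ℝ) (μ : ℂ) : ℂ :=
  ∑ k, ∫ x in (p k)..(p k + θ), Complex.exp ((x : ℂ) * μ)

lemma KK_conj (p : κ → ℝ) (θ : ℝ) (μ : ℂ) : conj (KK p θ μ) = KK p θ (conj μ) := by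
  unfold KK
  rw [map_sum]
  refine sum_congr rfl fun k _ => ?_
  rw [intervalIntegral, intervalIntegral, map_sub, ← integral_conj, ← integral_conj]
  simp only [← Complex.exp_conj, map_mul, Complex.conj_ofReal]

lemma KK_zero (p : κ → ℝ) (θ : ℝ) : KK p θ 0 = (((Fintype.card κ : ℝ) * θ : ℝ) : ℂ) := by
  unfold KK
  simp

/-- the Gram matrix -/
noncomputable def GE (lam : ι → ℂ) (p : κ → ℝ) (θ : ℝ) : Matrix ι ι ℂ :=
  Matrix.of fun i j => KK p θ (lam i + conj (lam j))

omit [DecidableEq ι] in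
lemma GE_psd (lam : ι → ℂ) (p : κ → ℝ) {θ : ℝ} (hθ : 0 ≤ θ) : (GE lam p θ).PosSemidef := by
  have hH : (GE lam p θ).IsHermitian := by
    ext i j
    rw [conjTranspose_apply, RCLike.star_def]
    unfold GE
    rw [of_apply, of_apply, KK_conj]
    congr 1
    rw [map_add, Complex.conj_conj, add_comm]
  refine PosSemidef.of_dotProduct_mulVec_nonneg hH ?_
  intro x
  set S : ℝ → ℂ := fun t => ∑ j, x j * Complex.exp ((t : ℂ) * conj (lam j)) with hS
  have hSc : Continuous S := by
    simp only [hS]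
    fun_prop
  have key : star x ⬝ᵥ (GE lam p θ *ᵥ x) = ∑ k, ∫ t in (p k)..(p k + θ), ((‖S t‖ ^ 2 : ℝ) : ℂ) := by
    have e1 : ∀ t : ℝ, ((‖S t‖ ^ 2 : ℝ) : ℂ) =
        ∑ i, ∑ j, conj (x i) * x j * Complex.exp ((t : ℂ) * (lam i + conj (lam j))) := by
      intro t
      rw [Complex.ofReal_pow, ← Complex.conj_mul']
      simp only [hS]
      rw [map_sum, sum_mul_sum]
      refine sum_congr rfl fun i _ => sum_congr rfl fun j _ => ?_
      rw [map_mul, ← Complex.exp_conj, map_mul, Complex.conj_conj, Complex.conj_ofReal, mul_add,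
        Complex.exp_add]
      ring
    have e2 : ∀ k, ∫ t in (p k)..(p k + θ), ((‖S t‖ ^ 2 : ℝ) : ℂ) =
        ∑ i, ∑ j, conj (x i) * x j * ∫ t in (p k)..(p k + θ),
          Complex.exp ((t : ℂ) * (lam i + conj (lam j))) := by
      intro k
      rw [intervalIntegral.integral_congr (g := fun t : ℝ =>
        ∑ i, ∑ j, conj (x i) * x j * Complex.exp ((t : ℂ) * (lam i + conj (lam j))))
        (fun t _ => e1 t)]
      rw [intervalIntegral.integral_finsetSum]
      · refine sum_congr rfl fun i _ => ?_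
        rw [intervalIntegral.integral_finsetSum]
        · refine sum_congr rfl fun j _ => ?_
          rw [intervalIntegral.integral_const_mul]
        · intro j _
          exact (by fun_prop : Continuous fun t : ℝ =>
            conj (x i) * x j * Complex.exp ((t : ℂ) * (lam i + conj (lam j)))).intervalIntegrable _ _
      · intro i _
        exact (by fun_prop : Continuous fun t : ℝ =>
            ∑ j, conj (x i) * x j * Complex.exp ((t : ℂ) * (lam i + conj (lam j)))).intervalIntegrable _ _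
    rw [sum_congr rfl fun k _ => e2 k]
    rw [sum_comm]
    simp only [dotProduct, mulVec, Pi.star_apply, RCLike.star_def, GE, of_apply, KK]
    refine sum_congr rfl fun i _ => ?_
    rw [sum_comm, mul_sum]
    refine sum_congr rfl fun j _ => ?_
    rw [← mul_sum]
    ring
  rw [key]
  refine sum_nonneg fun k _ => ?_
  rw [intervalIntegral.integral_ofReal]
  rw [Complex.zero_le_real]
  apply intervalIntegral.integral_nonneg (by linarith)
  intro t _
  positivity

omit [DecidableEq ι] in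
lemma expsum_refl {lam : ι → ℂ} {m : ι → ℝ} {st : ι → ι} (hst : ∀ i, st (st i) = i)
    (hlam : ∀ i, lam (st i) = -conj (lam i)) (hms : ∀ i, m (st i) = m i) (w : ℝ) :
    ∑ i, (m i : ℂ) * Complex.exp (-((w : ℂ) * lam i)) =
      conj (∑ i, (m i : ℂ) * Complex.exp ((w : ℂ) * lam i)) := by
  rw [map_sum, ← Equiv.sum_comp (⟨st, st, hst, hst⟩ : Equiv.Perm ι)]
  refine sum_congr rfl fun i _ => ?_
  simp only [Equiv.coe_fn_mk]
  rw [hms, hlam, map_mul, ← Complex.exp_conj, map_mul, Complex.conj_ofReal, Complex.conj_ofReal]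
  congr 2
  ring

omit [DecidableEq ι] in
lemma sum_comm4 (f : ι → ι → κ → κ → ℂ) :
    ∑ i, ∑ j, ∑ k, ∑ l, f i j k l = ∑ k, ∑ l, ∑ i, ∑ j, f i j k l := by
  calc ∑ i, ∑ j, ∑ k, ∑ l, f i j k l = ∑ i, ∑ k, ∑ j, ∑ l, f i j k l :=
        sum_congr rfl fun i _ => sum_comm
    _ = ∑ k, ∑ i, ∑ j, ∑ l, f i j k l := sum_comm
    _ = ∑ k, ∑ i, ∑ l, ∑ j, f i j k l :=
        sum_congr rfl fun k _ => sum_congr rfl fun i _ => sum_comm
    _ = ∑ k, ∑ l, ∑ i, ∑ j, f i j k l := sum_congr rfl fun k _ => sum_comm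

/-- The family inequality. -/
theorem family_abs (lam : ι → ℂ) (m : ι → ℝ) (hm : ∀ i, 1 ≤ m i) (st : ι → ι)
    (hst : ∀ i, st (st i) = i) (hlam : ∀ i, lam (st i) = -conj (lam i))
    (hms : ∀ i, m (st i) = m i) (p : κ → ℝ) {θ : ℝ} (hθ : 0 ≤ θ) :
    (∑ i, m i) * ((Fintype.card κ : ℝ) * θ) ^ 2 ≤
      ∑ k, ∑ l, ∫ w : ℝ, tri θ (p k - p l) w * ‖∑ i, (m i : ℂ) * Complex.exp ((w : ℂ) * lam i)‖ ^ 2 := by
  set H : Matrix ι ι ℂ := Matrix.of fun i j => if i = st j then (m j : ℂ) else 0 with hH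
  set E := GE lam p θ with hE
  have hHh : Hᴴ = H := by
    ext i j
    rw [conjTranspose_apply, RCLike.star_def, hH, of_apply, of_apply]
    by_cases h : j = st i
    · have h' : i = st j := by rw [h, hst]
      rw [if_pos h, if_pos h', Complex.conj_ofReal, h, hms]
    · have h' : ¬ i = st j := fun e => h (by rw [e, hst])
      rw [if_neg h, if_neg h', map_zero]
  have hEH : ∀ i j, (E * H) i j = (m j : ℂ) * KK p θ (lam i - lam j) := by
    intro i j
    rw [Matrix.mul_apply, sum_eq_single (st j)]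
    · rw [hE, hH, GE, of_apply, of_apply, if_pos rfl, hlam, map_neg, Complex.conj_conj, mul_comm]
      congr 2
    · intro k _ hk
      rw [hH, of_apply, if_neg hk, mul_zero]
    · intro h
      exact absurd (mem_univ _) h
  have htr1 : (E * H).trace.re = (∑ i, m i) * ((Fintype.card κ : ℝ) * θ) := by
    rw [Matrix.trace, Complex.re_sum, sum_mul]
    refine sum_congr rfl fun i _ => ?_
    rw [Matrix.diag_apply, hEH, sub_self, KK_zero, ← Complex.ofReal_mul, Complex.ofReal_re]
  set A : ℝ → ℂ := fun w => ∑ i, (m i : ℂ) * Complex.exp ((w : ℂ) * lam i) with hA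
  have hAc : Continuous A := by
    simp only [hA]
    fun_prop
  have hint : ∀ d : ℝ, ∀ μ : ℂ, Integrable (fun w : ℝ => ((tri θ d w : ℝ) : ℂ) * Complex.exp ((w : ℂ) * μ)) := by
    intro d μ
    apply Continuous.integrable_of_hasCompactSupport
    · exact (Complex.continuous_ofReal.comp (tri_cont θ d)).mul (by fun_prop)
    · apply HasCompactSupport.intro (isCompact_Icc (a := d - θ) (b := d + θ))
      intro w hw
      have : tri θ d w = 0 := by
        apply tri_zero
        rw [Set.mem_Icc, not_and_or, not_le, not_le] at hw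
        rcases hw with h | h
        · rw [abs_of_nonpos (by linarith)]; linarith
        · rw [abs_of_nonneg (by linarith)]; linarith
      rw [this]; simp
  have htr2 : (E * H * (E * H)).trace = ((∑ k, ∑ l, ∫ w : ℝ, tri θ (p k - p l) w * ‖A w‖ ^ 2 : ℝ) : ℂ) := by
    have e1 : ∀ w : ℝ, ((‖A w‖ ^ 2 : ℝ) : ℂ) =
        ∑ i, ∑ j, (m i : ℂ) * (m j : ℂ) * Complex.exp ((w : ℂ) * (lam i - lam j)) := by
      intro w
      rw [Complex.ofReal_pow, ← Complex.mul_conj', ← expsum_refl hst hlam hms w, hA, sum_mul_sum]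
      refine sum_congr rfl fun i _ => sum_congr rfl fun j _ => ?_
      rw [show (w : ℂ) * (lam i - lam j) = (w : ℂ) * lam i + -((w : ℂ) * lam j) by ring,
        Complex.exp_add]
      ring
    have e2 : ∀ k l, ((∫ w : ℝ, tri θ (p k - p l) w * ‖A w‖ ^ 2 : ℝ) : ℂ) =
        ∑ i, ∑ j, (m i : ℂ) * (m j : ℂ) *
          ∫ w : ℝ, ((tri θ (p k - p l) w : ℝ) : ℂ) * Complex.exp ((w : ℂ) * (lam i - lam j)) := by
      intro k l
      rw [← integral_complex_ofReal]
      have e3 : (fun w : ℝ => ((tri θ (p k - p l) w * ‖A w‖ ^ 2 : ℝ) : ℂ)) = fun w : ℝ =>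
          ∑ i, ∑ j, (m i : ℂ) * (m j : ℂ) *
          (((tri θ (p k - p l) w : ℝ) : ℂ) * Complex.exp ((w : ℂ) * (lam i - lam j))) := by
        funext w
        rw [Complex.ofReal_mul, e1, mul_sum]
        refine sum_congr rfl fun i _ => ?_
        rw [mul_sum]
        refine sum_congr rfl fun j _ => ?_
        ring
      rw [e3, integral_finsetSum]
      · refine sum_congr rfl fun i _ => ?_
        rw [integral_finsetSum]
        · refine sum_congr rfl fun j _ => ?_
          rw [integral_const_mul]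
        · intro j _
          exact (hint _ _).const_mul _
      · intro i _
        exact integrable_finsetSum _ fun j _ => (hint _ _).const_mul _
    push_cast
    rw [sum_congr rfl fun k _ => sum_congr rfl fun l _ => e2 k l]
    have e4 : (E * H * (E * H)).trace = ∑ i, ∑ j, (m i : ℂ) * (m j : ℂ) *
        ∑ k, ∑ l, ∫ w : ℝ, ((tri θ (p k - p l) w : ℝ) : ℂ) * Complex.exp ((w : ℂ) * (lam i - lam j)) := by
      rw [Matrix.trace]
      refine sum_congr rfl fun i _ => ?_
      rw [Matrix.diag_apply, Matrix.mul_apply]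
      refine sum_congr rfl fun j _ => ?_
      rw [hEH, hEH]
      have e5 : KK p θ (lam i - lam j) * KK p θ (lam j - lam i) =
          ∑ k, ∑ l, ∫ w : ℝ, ((tri θ (p k - p l) w : ℝ) : ℂ) * Complex.exp ((w : ℂ) * (lam i - lam j)) := by
        unfold KK
        rw [sum_mul_sum]
        refine sum_congr rfl fun k _ => sum_congr rfl fun l _ => ?_
        rw [← tri_exp hθ (p k) (p l) (lam i - lam j), neg_sub]
      rw [← e5]
      ring
    rw [e4]
    simp only [mul_sum]
    exact sum_comm4 _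
  set R := ∑ k, ∑ l, ∫ w : ℝ, tri θ (p k - p l) w * ‖A w‖ ^ 2 with hR
  have hR0 : 0 ≤ R := sum_nonneg fun k _ => sum_nonneg fun l _ =>
    integral_nonneg fun w => mul_nonneg (tri_nonneg _ _ _) (by positivity)
  have hmain := trace_rank (GE_psd lam p hθ) hHh
  rw [← hE, htr1, htr2, Complex.ofReal_re] at hmain
  set N := ∑ i, m i with hN
  have hcard : (Fintype.card ι : ℝ) ≤ N := by
    have : ∑ _i : ι, (1 : ℝ) ≤ ∑ i, m i := sum_le_sum fun i _ => hm i
    simpa using this
  have hN0 : 0 ≤ N := (Nat.cast_nonneg _).trans hcard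
  rcases hN0.eq_or_lt with h0 | h0
  · rw [← h0, zero_mul]
    exact hR0
  · have h1 : N * (N * ((Fintype.card κ : ℝ) * θ) ^ 2) ≤ N * R := by
      calc N * (N * ((Fintype.card κ : ℝ) * θ) ^ 2) = (N * ((Fintype.card κ : ℝ) * θ)) ^ 2 := by ring
        _ ≤ (Fintype.card ι : ℝ) * R := hmain
        _ ≤ N * R := mul_le_mul_of_nonneg_right hcard hR0
    exact le_of_mul_le_mul_left h1 h0

end Pool.Agent.Helper49.HM
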