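import Pool.Agent.Helper49.HM.FPb
import Pool.Agent.Helper57.FL.Zla
import Pool.Agent.Helper69.GGM.EB
/-!
# F+: lower bounds for the form factor of the zeros of zeta
-/
set_option autoImplicit false
namespace Pool.Agent.Helper49.HM
open Finset MeasureTheory Filter
open Pool.Agent.Helper57.LH Pool.Agent.Helper57.PC Pool.Agent.Helper57.Zeta
open Pool.Agent.Helper57.FL Pool.Agent.Helper69.GGM
open scoped ComplexConjugate

/-- `T log T / 2π`. -/
noncomputable def SS0 (T : ℝ) : ℝ := T * Real.log T / (2 * Real.pi)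

lemma SS0_pos {T : ℝ} (hT : 3 ≤ T) : 0 < SS0 T := by
  unfold SS0
  have h1 : 0 < Real.log T := Real.log_pos (by linarith)
  have := Real.pi_pos
  positivity

lemma mx_ge_one {T : ℝ} {ρ : ℂ} (h : ρ ∈ Zf T) : 1 ≤ mx ρ := by
  rw [mem_Zf] at h
  have h1 := isNontrivialZero_iff.mp h.1
  have h2 := (order_pos_iff differentiable_xi xi_two_ne ρ).mpr h1
  unfold mx
  have : 1 ≤ analyticOrderNatAt xi ρ := Nat.one_le_iff_ne_zero.mpr h2
  exact_mod_cast this

/-- The family inequality for the form factor (exact, for every `T ≥ 3`). -/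
theorem family_zeros {T : ℝ} (hT : 3 ≤ T) {κ : Type*} [Fintype κ] (p : κ → ℝ) {θ : ℝ} (hθ : 0 ≤ θ) :
    (∑ ρ ∈ Zf T, mx ρ) / SS0 T * ((Fintype.card κ : ℝ) * θ) ^ 2 ≤
      ∑ k, ∑ l, ∫ w : ℝ, tri θ (p k - p l) w * ff T w := by
  have hS := SS0_pos hT
  have h := family_abs (ι := {ρ // ρ ∈ Zf T}) (fun ρ => (Real.log T : ℂ) * (ρ.1 - 1 / 2))
    (fun ρ => mx ρ.1) (fun ρ => mx_ge_one ρ.2)
    (fun ρ => ⟨1 - conj ρ.1, ebk_refl_mem_Zf ρ.2⟩) (fun ρ => Subtype.ext (ebk_refl_refl_Zf ρ.1))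
    (fun ρ => by
      simp only [map_mul, map_sub, Complex.conj_ofReal, map_div₀, map_one, map_ofNat]
      ring)
    (fun ρ => ebk_mx_refl ρ.1) p hθ
  have e1 : ∑ ρ : {ρ // ρ ∈ Zf T}, mx ρ.1 = ∑ ρ ∈ Zf T, mx ρ := sum_coe_sort (Zf T) mx
  rw [e1] at h
  have e2 : ∀ w : ℝ, ff T w = ‖∑ ρ : {ρ // ρ ∈ Zf T}, (mx ρ.1 : ℂ) *
      Complex.exp ((w : ℂ) * ((Real.log T : ℂ) * (ρ.1 - 1 / 2)))‖ ^ 2 / SS0 T := by
    intro w
    unfold ff SS0
    rw [sum_coe_sort (Zf T) (fun ρ => (mx ρ : ℂ) * Complex.exp ((w : ℂ) * ((Real.log T : ℂ) * (ρ - 1 / 2))))]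
    have e3 : ∑ ρ ∈ Zf T, (mx ρ : ℂ) * (T : ℂ) ^ ((w : ℂ) * (ρ - 1 / 2)) =
        ∑ ρ ∈ Zf T, (mx ρ : ℂ) * Complex.exp ((w : ℂ) * ((Real.log T : ℂ) * (ρ - 1 / 2))) := by
      refine sum_congr rfl fun ρ _ => ?_
      rw [Complex.cpow_def_of_ne_zero (by exact_mod_cast (by linarith : T ≠ 0)),
        ← Complex.ofReal_log (by linarith)]
      congr 2
      ring
    rw [e3]
    have hT0 : T ≠ 0 := by linarith
    have hL : Real.log T ≠ 0 := (Real.log_pos (by linarith)).ne'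
    have hpi := Real.pi_pos.ne'
    generalize (∑ ρ ∈ Zf T, (mx ρ : ℂ) * Complex.exp ((w : ℂ) * ((Real.log T : ℂ) * (ρ - 1 / 2)))) = a
    field_simp
  have e4 : ∀ k l, ∫ w : ℝ, tri θ (p k - p l) w * ff T w =
      (∫ w : ℝ, tri θ (p k - p l) w * ‖∑ ρ : {ρ // ρ ∈ Zf T}, (mx ρ.1 : ℂ) *
      Complex.exp ((w : ℂ) * ((Real.log T : ℂ) * (ρ.1 - 1 / 2)))‖ ^ 2) / SS0 T := by
    intro k l
    rw [← integral_div]
    refine integral_congr_ae (Filter.Eventually.of_forall fun w => ?_)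
    simp only
    rw [e2 w]
    ring
  rw [sum_congr rfl fun k _ => sum_congr rfl fun l _ => e4 k l]
  simp only [← sum_div]
  rw [div_mul_eq_mul_div, div_le_div_iff_of_pos_right hS]
  exact h

lemma tri_ff_integrable {T : ℝ} (hT : 3 ≤ T) (θ d : ℝ) :
    Integrable (fun w : ℝ => tri θ d w * ff T w) := by
  apply Continuous.integrable_of_hasCompactSupport
  · exact (tri_cont θ d).mul (ff_cont (by linarith))
  · apply HasCompactSupport.intro (isCompact_Icc (a := d - |θ|) (b := d + |θ|))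
    intro w hw
    have : tri θ d w = 0 := by
      apply tri_zero
      have h0 := le_abs_self θ
      rw [Set.mem_Icc, not_and_or, not_le, not_le] at hw
      rcases hw with h | h
      · have := abs_nonneg θ
        rw [abs_of_nonpos (by linarith)]; linarith
      · have := abs_nonneg θ
        rw [abs_of_nonneg (by linarith)]; linarith
    rw [this]; simp

/-- the form factor is even -/
lemma ff_even (T x : ℝ) (hT : 3 ≤ T) : ff T (-x) = ff T x := by
  unfold ff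
  congr 2
  have e : ∀ y : ℝ, ∑ ρ ∈ Zf T, (mx ρ : ℂ) * (T : ℂ) ^ ((y : ℂ) * (ρ - 1 / 2)) =
      ∑ ρ ∈ Zf T, (mx ρ : ℂ) * Complex.exp ((y : ℂ) * ((Real.log T : ℂ) * (ρ - 1 / 2))) := by
    intro y
    refine sum_congr rfl fun ρ _ => ?_
    rw [Complex.cpow_def_of_ne_zero (by exact_mod_cast (by linarith : T ≠ 0)),
      ← Complex.ofReal_log (by linarith)]
    congr 2
    ring
  rw [e, e, ebk_sum_Zf_refl T (fun ρ => Complex.exp (((-x : ℝ) : ℂ) * ((Real.log T : ℂ) * (ρ - 1 / 2))))]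
  rw [← Complex.norm_conj]
  congr 1
  rw [map_sum]
  refine sum_congr rfl fun ρ _ => ?_
  rw [map_mul, ← Complex.exp_conj, Complex.conj_ofReal]
  congr 2
  simp only [map_mul, map_sub, Complex.conj_ofReal, map_div₀, map_one, map_ofNat, Complex.conj_conj]
  push_cast
  ring

/-- One interval: the mean of the form factor. -/
theorem mean_zeros {T : ℝ} (hT : 3 ≤ T) {K : ℝ} (hK : 0 ≤ K) :
    (∑ ρ ∈ Zf T, mx ρ) / SS0 T * K ^ 2 ≤ ∫ w : ℝ, tri K 0 w * ff T w := by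
  have h := family_zeros hT (fun _ : Fin 1 => (0 : ℝ)) hK
  simpa using h

/-- Two intervals. -/
theorem two_zeros {T : ℝ} (hT : 3 ≤ T) {θ : ℝ} (hθ : 0 ≤ θ) (b : ℝ) :
    2 * ((∑ ρ ∈ Zf T, mx ρ) / SS0 T) * θ ^ 2 - ∫ w : ℝ, tri θ 0 w * ff T w ≤
      ∫ w : ℝ, tri θ b w * ff T w := by
  have h := family_zeros hT (fun k : Fin 2 => if k = 0 then (0 : ℝ) else b) hθ
  simp only [Fin.sum_univ_two, Fintype.card_fin] at h
  simp only [if_true, Fin.one_eq_zero_iff, OfNat.ofNat_ne_one, if_false, sub_self, zero_sub,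
    sub_zero] at h
  have hneg : ∫ w : ℝ, tri θ (-b) w * ff T w = ∫ w : ℝ, tri θ b w * ff T w := by
    rw [← integral_neg_eq_self]
    refine integral_congr_ae (Filter.Eventually.of_forall fun w => ?_)
    simp only
    rw [ff_even T w hT]
    unfold tri
    rw [show -w - -b = -(w - b) by ring, abs_neg]
  rw [hneg] at h
  push_cast at h
  nlinarith

end Pool.Agent.Helper49.HM
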