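import Pool.Agent.Helper49.HM.Triples
/-!
# The Montgomery-Taylor window: its transform has no additive triple of zeros
-/
set_option autoImplicit false
namespace Pool.Agent.Helper49.HM
open Real MeasureTheory

/-- The transform of the window `cos (ω x)` on `[-L, L]`. -/
noncomputable def mtG (ω L y : ℝ) : ℝ := ∫ x in (-L)..L, cos (ω * x) * cos (y * x)

theorem mtG_formula (ω L y : ℝ) :
    (ω ^ 2 - y ^ 2) * mtG ω L y =
      2 * (ω * sin (ω * L) * cos (y * L) - cos (ω * L) * (y * sin (y * L))) := by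
  have hd : ∀ x : ℝ, HasDerivAt (fun x => ω * (sin (ω * x) * cos (y * x)) -
      y * (cos (ω * x) * sin (y * x))) ((ω ^ 2 - y ^ 2) * (cos (ω * x) * cos (y * x))) x := by
    intro x
    have e1 : HasDerivAt (fun x : ℝ => ω * x) ω x := by simpa using (hasDerivAt_id x).const_mul ω
    have e2 : HasDerivAt (fun x : ℝ => y * x) y x := by simpa using (hasDerivAt_id x).const_mul y
    have h := (((e1.sin).mul (e2.cos)).const_mul ω).sub (((e1.cos).mul (e2.sin)).const_mul y)
    refine h.congr_deriv ?_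
    ring
  have h := intervalIntegral.integral_eq_sub_of_hasDerivAt (a := -L) (b := L)
    (fun x _ => hd x) ((by fun_prop : Continuous fun x : ℝ =>
      (ω ^ 2 - y ^ 2) * (cos (ω * x) * cos (y * x))).intervalIntegrable _ _)
  rw [intervalIntegral.integral_const_mul] at h
  unfold mtG
  rw [h]
  rw [show ω * -L = -(ω * L) by ring, show y * -L = -(y * L) by ring]
  simp only [sin_neg, cos_neg]
  ring

theorem continuous_mtG (ω L : ℝ) : Continuous (mtG ω L) := by
  unfold mtG
  exact intervalIntegral.continuous_parametric_intervalIntegral_of_continuous' (by fun_prop) _ _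

/-- No additive triple of zeros. -/
theorem mtG_triple {ω L : ℝ} (hP : ω * sin (ω * L) ≠ 0) (y z : ℝ) :
    ¬ (mtG ω L y = 0 ∧ mtG ω L z = 0 ∧ mtG ω L (y + z) = 0) := by
  rintro ⟨h1, h2, h3⟩
  have f1 := mtG_formula ω L y
  have f2 := mtG_formula ω L z
  have f3 := mtG_formula ω L (y + z)
  rw [h1, mul_zero] at f1
  rw [h2, mul_zero] at f2
  rw [h3, mul_zero, show (y + z) * L = y * L + z * L by ring, cos_add, sin_add] at f3
  set P := ω * sin (ω * L) with hPd
  set q := cos (ω * L)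
  set s := sin (y * L)
  set c := cos (y * L)
  set s' := sin (z * L)
  set c' := cos (z * L)
  have g1 : P * c = q * (y * s) := by linarith
  have g2 : P * c' = q * (z * s') := by linarith
  have g3 : P * (c * c' - s * s') = q * ((y + z) * (s * c' + c * s')) := by linarith
  have key : s * s' * (P ^ 2 + q ^ 2 * (y ^ 2 + y * z + z ^ 2)) = 0 := by
    have e : P * (P * (c * c' - s * s')) = P * (q * ((y + z) * (s * c' + c * s'))) := by rw [g3]
    have e1 : (P * c) * (P * c') = (q * (y * s)) * (q * (z * s')) := by rw [g1, g2]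
    have e2 : P * (q * ((y + z) * (s * c' + c * s'))) =
        q * (y + z) * (s * (P * c') + (P * c) * s') := by ring
    rw [e2, g1, g2] at e
    have e3 : P * (P * (c * c' - s * s')) = (P * c) * (P * c') - P ^ 2 * (s * s') := by ring
    rw [e3, e1] at e
    linear_combination -e
  have hpos : 0 < P ^ 2 + q ^ 2 * (y ^ 2 + y * z + z ^ 2) := by
    have a1 : 0 < P ^ 2 := by positivity
    have a2 : 0 ≤ y ^ 2 + y * z + z ^ 2 := by nlinarith [sq_nonneg (y + z), sq_nonneg y, sq_nonneg z]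
    positivity
  have hss : s * s' = 0 := by
    rcases mul_eq_zero.1 key with h | h
    · exact h
    · exact absurd h hpos.ne'
  have t1 : s ^ 2 + c ^ 2 = 1 := sin_sq_add_cos_sq _
  have t2 : s' ^ 2 + c' ^ 2 = 1 := sin_sq_add_cos_sq _
  rcases mul_eq_zero.1 hss with h | h
  · rw [h, mul_zero, mul_zero] at g1
    have hc : c = 0 := by
      rcases mul_eq_zero.1 g1 with h' | h'
      · exact absurd h' hP
      · exact h'
    rw [h, hc] at t1
    norm_num at t1
  · rw [h, mul_zero, mul_zero] at g2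
    have hc : c' = 0 := by
      rcases mul_eq_zero.1 g2 with h' | h'
      · exact absurd h' hP
      · exact h'
    rw [h, hc] at t2
    norm_num at t2

/-- The same for the square and any constant factors: a form directly usable in `triples`. -/
theorem mt_hne {ω L k : ℝ} (hP : ω * sin (ω * L) ≠ 0) (hk : k ≠ 0) (x y : ℝ) :
    ¬ ((mtG ω L (k * x)) ^ 2 = 0 ∧ (mtG ω L (k * y)) ^ 2 = 0 ∧ (mtG ω L (k * (x + y))) ^ 2 = 0) := by
  rintro ⟨h1, h2, h3⟩
  have := hk
  apply mtG_triple hP (k * x) (k * y)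
  rw [← mul_add]
  exact ⟨pow_eq_zero_iff (two_ne_zero) |>.1 h1, pow_eq_zero_iff (two_ne_zero) |>.1 h2,
    pow_eq_zero_iff (two_ne_zero) |>.1 h3⟩

/-- Matchings for the Montgomery-Taylor window. -/
theorem mt_triples {ω L k : ℝ} (hP : ω * sin (ω * L) ≠ 0) (hk : k ≠ 0) {c : ℝ} (hc : 0 < c) :
    ∃ δ > 0, ∃ X0 : ℝ, ∀ X ≥ X0, ∀ a : ℝ, ∀ U : Finset ℝ, (∀ u ∈ U, a ≤ u ∧ u ≤ a + X) →
      c * X ≤ U.card → ∃ M : Finset (ℝ × ℝ), (∀ p ∈ M, p.1 ∈ U ∧ p.2 ∈ U ∧ p.1 < p.2) ∧
        (∀ p ∈ M, ∀ q ∈ M, p ≠ q → p.1 ≠ q.1 ∧ p.1 ≠ q.2 ∧ p.2 ≠ q.1 ∧ p.2 ≠ q.2) ∧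
        δ * X ≤ ∑ p ∈ M, (mtG ω L (k * (p.2 - p.1))) ^ 2 := by
  apply triples (r := fun x => (mtG ω L (k * x)) ^ 2) _ (fun x => sq_nonneg _)
    (fun x y _ _ => mt_hne hP hk x y) hc
  exact ((continuous_mtG ω L).comp (continuous_const.mul continuous_id)).pow 2

/-- The hypothesis for `ω = √2`, `0 < L ≤ 1/2` (any `L` with `0 < √2 L < π`). -/
theorem mt_hP {L : ℝ} (h0 : 0 < L) (h1 : L ≤ 1 / 2) : √2 * sin (√2 * L) ≠ 0 := by
  have h2 : 0 < √2 := by positivity
  have h3 : √2 ≤ 2 := by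
    rw [Real.sqrt_le_left (by norm_num)]; norm_num
  have h4 : √2 * L ≤ 1 := by nlinarith
  have := sin_pos_of_pos_of_lt_pi (mul_pos h2 h0) (by linarith [pi_gt_three])
  positivity

end Pool.Agent.Helper49.HM
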