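import Mathlib
/-!
# Matchings in consecutive triples
-/
set_option autoImplicit false
namespace Pool.Agent.Helper49.HM
open Finset

theorem exists_eta {r : ℝ → ℝ} (hr : Continuous r) (h0 : ∀ x, 0 ≤ r x)
    (hne : ∀ x y, 0 ≤ x → 0 ≤ y → ¬ (r x = 0 ∧ r y = 0 ∧ r (x + y) = 0)) {B : ℝ} (hB : 0 ≤ B) :
    ∃ η > 0, ∀ x y, 0 ≤ x → 0 ≤ y → x + y ≤ B → η ≤ r x ∨ η ≤ r y ∨ η ≤ r (x + y) := by
  set S : Set (ℝ × ℝ) := {p | 0 ≤ p.1 ∧ 0 ≤ p.2 ∧ p.1 + p.2 ≤ B} with hS
  have hSc : IsCompact S := by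
    apply Metric.isCompact_of_isClosed_isBounded
    · refine (isClosed_le continuous_const continuous_fst).inter
        ((isClosed_le continuous_const continuous_snd).inter
          (isClosed_le (continuous_fst.add continuous_snd) continuous_const))
    · refine ((Metric.isBounded_Icc (0 : ℝ) B).prod (Metric.isBounded_Icc (0 : ℝ) B)).subset ?_
      rintro ⟨x, y⟩ ⟨h1, h2, h3⟩
      simp only at h1 h2 h3
      exact ⟨⟨h1, by linarith⟩, ⟨h2, by linarith⟩⟩
  have hSn : S.Nonempty := ⟨(0, 0), le_rfl, le_rfl, by simpa using hB⟩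
  obtain ⟨p, hp, hmin⟩ := hSc.exists_isMinOn (f := fun p : ℝ × ℝ => r p.1 + r p.2 + r (p.1 + p.2))
    hSn (by fun_prop)
  have hpos : 0 < r p.1 + r p.2 + r (p.1 + p.2) := by
    have a1 := h0 p.1
    have a2 := h0 p.2
    have a3 := h0 (p.1 + p.2)
    by_contra hc
    push Not at hc
    exact hne p.1 p.2 hp.1 hp.2.1 ⟨by linarith, by linarith, by linarith⟩
  refine ⟨(r p.1 + r p.2 + r (p.1 + p.2)) / 3, by positivity, ?_⟩
  intro x y hx hy hxy
  have h1 : r p.1 + r p.2 + r (p.1 + p.2) ≤ r x + r y + r (x + y) :=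
    hmin (show (x, y) ∈ S from ⟨hx, hy, hxy⟩)
  by_contra hc
  push Not at hc
  obtain ⟨c1, c2, c3⟩ := hc
  linarith

theorem triples {r : ℝ → ℝ} (hr : Continuous r) (h0 : ∀ x, 0 ≤ r x)
    (hne : ∀ x y, 0 ≤ x → 0 ≤ y → ¬ (r x = 0 ∧ r y = 0 ∧ r (x + y) = 0)) {c : ℝ} (hc : 0 < c) :
    ∃ δ > 0, ∃ X0 : ℝ, ∀ X ≥ X0, ∀ a : ℝ, ∀ U : Finset ℝ, (∀ u ∈ U, a ≤ u ∧ u ≤ a + X) →
      c * X ≤ U.card → ∃ M : Finset (ℝ × ℝ), (∀ p ∈ M, p.1 ∈ U ∧ p.2 ∈ U ∧ p.1 < p.2) ∧
        (∀ p ∈ M, ∀ q ∈ M, p ≠ q → p.1 ≠ q.1 ∧ p.1 ≠ q.2 ∧ p.2 ≠ q.1 ∧ p.2 ≠ q.2) ∧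
        δ * X ≤ ∑ p ∈ M, r (p.2 - p.1) := by
  classical
  obtain ⟨η, hη, hB⟩ := exists_eta hr h0 hne (B := 6 / c) (by positivity)
  refine ⟨η * c / 12, by positivity, 12 / c, ?_⟩
  intro X hX a U hU hn
  have hX0 : 12 ≤ c * X := by rwa [ge_iff_le, div_le_iff₀' hc] at hX
  have hXp : 0 < X := by
    by_contra h
    push Not at h
    nlinarith
  set n := U.card with hn'
  have hnpos : 0 < n := by
    have : (0 : ℝ) < n := by linarith
    exact_mod_cast this
  -- the increasing enumeration, constant after `n - 1`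
  set e := U.orderEmbOfFin hn'.symm with he
  set u : ℕ → ℝ := fun i => e ⟨min i (n - 1), by omega⟩ with hu
  have umem : ∀ i, u i ∈ U := fun i => U.orderEmbOfFin_mem hn'.symm _
  have umono : Monotone u := by
    intro i j hij
    apply e.monotone
    show min i (n - 1) ≤ min j (n - 1)
    omega
  have ustrict : ∀ i j, i < j → j < n → u i < u j := by
    intro i j hij hj
    apply e.strictMono
    show min i (n - 1) < min j (n - 1)
    omega
  have uinj : ∀ i j, i < n → j < n → u i = u j → i = j := by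
    intro i j hi hj hij
    rcases lt_trichotomy i j with h | h | h
    · exact absurd hij (ustrict i j h hj).ne
    · exact h
    · exact absurd hij.symm (ustrict j i h hi).ne
  set m := n / 3 with hm
  set good := (range m).filter (fun k => u (3 * k + 2) - u (3 * k) ≤ 6 / c) with hgood
  set bad := (range m).filter (fun k => ¬ u (3 * k + 2) - u (3 * k) ≤ 6 / c) with hbad
  have hcard : good.card + bad.card = m := by
    rw [hgood, hbad, card_filter_add_card_filter_not, card_range]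
  have hsum : ∑ k ∈ range m, (u (3 * k + 2) - u (3 * k)) ≤ X := by
    calc ∑ k ∈ range m, (u (3 * k + 2) - u (3 * k))
        ≤ ∑ k ∈ range m, (u (3 * (k + 1)) - u (3 * k)) := by
          apply sum_le_sum
          intro k _
          have : u (3 * k + 2) ≤ u (3 * (k + 1)) := umono (by omega)
          linarith
      _ = u (3 * m) - u (3 * 0) := sum_range_sub (fun k => u (3 * k)) m
      _ ≤ X := by
          have h1 := (hU _ (umem (3 * m))).2
          have h2 := (hU _ (umem (3 * 0))).1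
          linarith
  have hbadc : (bad.card : ℝ) * (6 / c) ≤ X := by
    calc (bad.card : ℝ) * (6 / c) = ∑ k ∈ bad, 6 / c := by rw [sum_const, nsmul_eq_mul]
      _ ≤ ∑ k ∈ bad, (u (3 * k + 2) - u (3 * k)) := by
          apply sum_le_sum
          intro k hk
          have := (mem_filter.1 hk).2
          push Not at this
          exact this.le
      _ ≤ ∑ k ∈ range m, (u (3 * k + 2) - u (3 * k)) := by
          apply sum_le_sum_of_subset_of_nonneg (filter_subset _ _)
          intro k _ _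
          have : u (3 * k) ≤ u (3 * k + 2) := umono (by omega)
          linarith
      _ ≤ X := hsum
  have hgoodc : c * X / 12 ≤ (good.card : ℝ) := by
    have h1 : (bad.card : ℝ) ≤ c * X / 6 := by
      rw [mul_div_assoc'] at hbadc
      rw [div_le_iff₀ hc] at hbadc
      linarith
    have h2 : (n : ℝ) ≤ 3 * (m : ℝ) + 2 := by
      have : n ≤ 3 * m + 2 := by omega
      exact_mod_cast this
    have h3 : ((good.card : ℕ) : ℝ) + bad.card = m := by exact_mod_cast hcard
    linarith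
  -- the choice of pairs
  have hch : ∀ k, ∃ i j : ℕ, k ∈ good → 3 * k ≤ i ∧ i < j ∧ j ≤ 3 * k + 2 ∧
      η ≤ r (u j - u i) := by
    intro k
    by_cases hk : k ∈ good
    · have hk2 := (mem_filter.1 hk).2
      have g1 : u (3 * k) ≤ u (3 * k + 1) := umono (by omega)
      have g2 : u (3 * k + 1) ≤ u (3 * k + 2) := umono (by omega)
      rcases hB (u (3 * k + 1) - u (3 * k)) (u (3 * k + 2) - u (3 * k + 1)) (by linarith)
        (by linarith) (by linarith) with h | h | h
      · exact ⟨3 * k, 3 * k + 1, fun _ => ⟨le_rfl, by omega, by omega, h⟩⟩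
      · exact ⟨3 * k + 1, 3 * k + 2, fun _ => ⟨by omega, by omega, le_rfl, h⟩⟩
      · refine ⟨3 * k, 3 * k + 2, fun _ => ⟨le_rfl, by omega, le_rfl, ?_⟩⟩
        have e1 : u (3 * k + 1) - u (3 * k) + (u (3 * k + 2) - u (3 * k + 1)) =
          u (3 * k + 2) - u (3 * k) := by ring
        rwa [e1] at h
    · exact ⟨0, 0, fun h => absurd h hk⟩
  choose i j hij using hch
  have hlt : ∀ k ∈ good, j k < n := by
    intro k hk
    have h1 := mem_range.1 (mem_filter.1 hk).1
    have h2 := (hij k hk).2.2.1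
    omega
  have hlti : ∀ k ∈ good, i k < n := by
    intro k hk
    have h1 := hlt k hk
    have h2 := (hij k hk).2.1
    omega
  have hdisj : ∀ k ∈ good, ∀ l ∈ good, k ≠ l → u (i k) ≠ u (i l) ∧ u (i k) ≠ u (j l) ∧
      u (j k) ≠ u (i l) ∧ u (j k) ≠ u (j l) := by
    intro k hk l hl hkl
    have h1 := hij k hk
    have h2 := hij l hl
    refine ⟨fun h => ?_, fun h => ?_, fun h => ?_, fun h => ?_⟩
    · have := uinj _ _ (hlti k hk) (hlti l hl) h
      omega
    · have := uinj _ _ (hlti k hk) (hlt l hl) h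
      omega
    · have := uinj _ _ (hlt k hk) (hlti l hl) h
      omega
    · have := uinj _ _ (hlt k hk) (hlt l hl) h
      omega
  refine ⟨good.image (fun k => (u (i k), u (j k))), ?_, ?_, ?_⟩
  · intro p hp
    obtain ⟨k, hk, rfl⟩ := mem_image.1 hp
    exact ⟨umem _, umem _, ustrict _ _ (hij k hk).2.1 (hlt k hk)⟩
  · intro p hp q hq hpq
    obtain ⟨k, hk, rfl⟩ := mem_image.1 hp
    obtain ⟨l, hl, rfl⟩ := mem_image.1 hq
    exact hdisj k hk l hl (fun h => hpq (by rw [h]))
  · rw [sum_image]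
    · calc η * c / 12 * X = (c * X / 12) * η := by ring
        _ ≤ (good.card : ℝ) * η := by gcongr
        _ = ∑ k ∈ good, η := by rw [sum_const, nsmul_eq_mul]
        _ ≤ ∑ k ∈ good, r (u (j k) - u (i k)) := sum_le_sum fun k hk => (hij k hk).2.2.2
    · intro k hk l hl h
      by_contra hkl
      exact (hdisj k hk l hl hkl).1 (congrArg Prod.fst h)

end Pool.Agent.Helper49.HM
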