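import Pool.Agent.Helper6.HM.Defs
/-!
# HM block P: from the gaps to the pairs in a window
-/
set_option autoImplicit false
namespace Pool.Agent.Helper49.HM
open Finset Pool.Agent.Helper6.HM

/-- The truncation to `[-1/2, 1/2]`. -/
noncomputable def clamp (g : ℝ) : ℝ := max (-(1 / 2)) (min (1 / 2) g)

theorem abs_clamp_le (g : ℝ) : |clamp g| ≤ 1 / 2 := by
  rw [abs_le]
  exact ⟨le_max_left _ _, max_le (by norm_num) (min_le_left _ _)⟩

/-- The gain of a pair (both orders together). -/
theorem clamp_gain (g : ℝ) : 2 * (2 * g * clamp g - clamp g ^ 2) = psi g := by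
  unfold clamp psi
  rcases le_total g (1 / 2) with h1 | h1
  · rw [min_eq_right h1]
    rcases le_total (-(1 / 2)) g with h2 | h2
    · rw [max_eq_right h2, if_pos (abs_le.2 ⟨h2, h1⟩)]
      ring
    · rw [max_eq_left h2]
      have h3 : |g| = -g := abs_of_nonpos (by linarith)
      split_ifs with h4
      · rw [h3] at h4
        have : g = -(1 / 2) := by linarith
        rw [this]; norm_num
      · rw [h3]; ring
  · rw [min_eq_left h1, max_eq_right (by norm_num)]
    have h3 : |g| = g := abs_of_nonneg (by linarith)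
    split_ifs with h4
    · rw [h3] at h4
      have : g = 1 / 2 := by linarith
      rw [this]; norm_num
    · rw [h3]; ring

theorem clamp_term_nonneg (g : ℝ) : 0 ≤ 2 * g * clamp g - clamp g ^ 2 := by
  have h := clamp_gain g
  have h2 : 0 ≤ psi g := by
    unfold psi
    split_ifs with h4
    · positivity
    · push Not at h4
      linarith
  linarith

/-- `u` and `v` are consecutive elements of `R`. -/
def Adj (R : Finset ℝ) (u v : ℝ) : Prop :=
  u ∈ R ∧ v ∈ R ∧ u ≠ v ∧ ∀ w ∈ R, 0 ≤ (w - u) * (w - v)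

theorem Adj.symm {R : Finset ℝ} {u v : ℝ} (h : Adj R u v) : Adj R v u :=
  ⟨h.2.1, h.1, h.2.2.1.symm, fun w hw => by rw [mul_comm]; exact h.2.2.2 w hw⟩

theorem phi_scale (t : ℝ) : phi (1393 / 2000) (199 / 200 * t) = 199 / 200 * phi (7 / 10) t := by
  unfold phi
  by_cases h : t < 2 * (7 / 10)
  · rw [if_pos h, if_pos (by linarith)]
  · rw [if_neg h, if_neg (by push Not at h ⊢; linarith)]
    norm_num

theorem window_comb_aux
    (hG : ∀ (n : ℕ) (x : Fin (n + 1) → ℝ) (_ : StrictMono x) (H a Λ : ℝ) (_ : 0 < H) (_ : 0 ≤ a)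
      (_ : 0 ≤ x 0) (_ : x (Fin.last n) ≤ Λ) (_ : ∀ i j, H ≤ |x i - (x j + a)|),
      ∑ i : Fin n, phi H (x i.succ - x i.castSucc) ≤ (Λ + a) / 2)
    (hK : ∀ t : ℝ, 0 < t →
      1 - psi (Real.sinc (Real.pi * t)) ≤ 947 / 1000 * phi (1393 / 2000) t + 9 / 50 * t)
    (U : Finset ℝ) {Λ α : ℝ} (hΛ : 0 ≤ Λ) (hα : 0 ≤ α) (hU : ∀ u ∈ U, 0 ≤ u ∧ u ≤ Λ) :
    ∃ c : ℝ → ℝ → ℝ, (∀ u v, c u v = c v u) ∧ (∀ u, c u u = 0) ∧ (∀ u ∈ U, ∑ v ∈ U, |c u v| ≤ 1) ∧
      (U.card : ℝ) - ((U ×ˢ U).filter (fun p => α < p.1 - p.2 ∧ p.1 - p.2 < α + 7 / 5)).card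
        - 199 / 200 * (1307 / 2000) * (Λ + α + 7 / 10) - 1
        ≤ ∑ u ∈ U, ∑ v ∈ U, (2 * Real.sinc (Real.pi * (199 / 200 * (u - v))) * c u v - c u v ^ 2)
          := by
  classical
  set W := (U ×ˢ U).filter (fun p => α < p.1 - p.2 ∧ p.1 - p.2 < α + 7 / 5) with hW
  set R := U \ W.image Prod.fst with hR
  have hRU : R ⊆ U := sdiff_subset
  have hcardR : (U.card : ℝ) - W.card ≤ R.card := by
    have h1 : U.card ≤ R.card + (W.image Prod.fst).card := by
      have := card_le_card_sdiff_add_card (s := U) (t := W.image Prod.fst)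
      exact this
    have h2 : (W.image Prod.fst).card ≤ W.card := card_image_le
    have h3 : U.card ≤ R.card + W.card := h1.trans (by omega)
    have : (U.card : ℝ) ≤ R.card + W.card := by exact_mod_cast h3
    linarith
  have hRsep : ∀ u ∈ R, ∀ v ∈ R, ¬ (α < u - v ∧ u - v < α + 7 / 5) := by
    intro u hu v hv h
    have hu2 := (mem_sdiff.1 hu).2
    apply hu2
    rw [mem_image]
    exact ⟨(u, v), mem_filter.2 ⟨mem_product.2 ⟨hRU hu, hRU hv⟩, h⟩, rfl⟩
  -- the matrix
  set c : ℝ → ℝ → ℝ := fun u v => if Adj R u v then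
    clamp (Real.sinc (Real.pi * (199 / 200 * (u - v)))) else 0 with hc
  have hsym : ∀ u v, Real.sinc (Real.pi * (199 / 200 * (v - u))) =
      Real.sinc (Real.pi * (199 / 200 * (u - v))) := by
    intro u v
    rw [show Real.pi * (199 / 200 * (v - u)) = -(Real.pi * (199 / 200 * (u - v))) by ring,
      Real.sinc_neg]
  have hterm : ∀ u v, 0 ≤ 2 * Real.sinc (Real.pi * (199 / 200 * (u - v))) * c u v - c u v ^ 2 := by
    intro u v
    simp only [hc]
    split_ifs with h
    · exact clamp_term_nonneg _
    · simp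
  refine ⟨c, ?_, ?_, ?_, ?_⟩
  · intro u v
    simp only [hc]
    by_cases h : Adj R u v
    · rw [if_pos h, if_pos h.symm, hsym u v]
    · rw [if_neg h, if_neg (fun h' => h h'.symm)]
  · intro u
    simp only [hc]
    rw [if_neg (fun h => h.2.2.1 rfl)]
  · intro u _
    -- at most one neighbour on each side
    have hle : ∀ v, |c u v| ≤ (if Adj R u v ∧ u < v then 1 / 2 else 0) +
        (if Adj R u v ∧ v < u then 1 / 2 else 0) := by
      intro v
      simp only [hc]
      by_cases h : Adj R u v
      · rw [if_pos h]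
        rcases lt_or_gt_of_ne h.2.2.1 with h1 | h1
        · rw [if_pos ⟨h, h1⟩]
          have := abs_clamp_le (Real.sinc (Real.pi * (199 / 200 * (u - v))))
          split_ifs <;> linarith
        · rw [if_pos (c := Adj R u v ∧ v < u) ⟨h, h1⟩]
          have := abs_clamp_le (Real.sinc (Real.pi * (199 / 200 * (u - v))))
          split_ifs <;> linarith
      · rw [if_neg h, if_neg (fun h' => h h'.1), if_neg (fun h' => h h'.1)]
        simp
    have hone : ∀ (p : ℝ → Prop) [DecidablePred p], (∀ v ∈ U, ∀ w ∈ U, p v → p w → v = w) →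
        ∑ v ∈ U, (if p v then (1 : ℝ) / 2 else 0) ≤ 1 / 2 := by
      intro p _ hp
      rw [← sum_filter, sum_const, nsmul_eq_mul]
      have : (U.filter p).card ≤ 1 := by
        rw [card_le_one]
        intro v hv w hw
        exact hp v (mem_filter.1 hv).1 w (mem_filter.1 hw).1 (mem_filter.1 hv).2 (mem_filter.1 hw).2
      have : ((U.filter p).card : ℝ) ≤ 1 := by exact_mod_cast this
      linarith
    calc ∑ v ∈ U, |c u v| ≤ ∑ v ∈ U, ((if Adj R u v ∧ u < v then (1 : ℝ) / 2 else 0) +
        (if Adj R u v ∧ v < u then 1 / 2 else 0)) := sum_le_sum fun v _ => hle v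
      _ ≤ 1 / 2 + 1 / 2 := by
          rw [sum_add_distrib]
          apply add_le_add
          · apply hone
            rintro v _ w _ ⟨h1, h2⟩ ⟨h3, h4⟩
            have e1 := h1.2.2.2 w h3.2.1
            have e2 := h3.2.2.2 v h1.2.1
            by_contra hne
            rcases lt_or_gt_of_ne hne with h | h
            · nlinarith
            · nlinarith
          · apply hone
            rintro v _ w _ ⟨h1, h2⟩ ⟨h3, h4⟩
            have e1 := h1.2.2.2 w h3.2.1
            have e2 := h3.2.2.2 v h1.2.1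
            by_contra hne
            rcases lt_or_gt_of_ne hne with h | h
            · nlinarith
            · nlinarith
      _ = 1 := by norm_num
  · rcases R.eq_empty_or_nonempty with hRe | hRn
    · have h1 : (U.card : ℝ) - W.card ≤ 0 := by
        rw [hRe] at hcardR
        simpa using hcardR
      have h2 : 0 ≤ ∑ u ∈ U, ∑ v ∈ U,
          (2 * Real.sinc (Real.pi * (199 / 200 * (u - v))) * c u v - c u v ^ 2) :=
        sum_nonneg fun u _ => sum_nonneg fun v _ => hterm u v
      nlinarith
    · obtain ⟨n, hn⟩ : ∃ n, R.card = n + 1 :=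
        ⟨R.card - 1, by have := hRn.card_pos; omega⟩
      set x : Fin (n + 1) → ℝ := ⇑(R.orderEmbOfFin hn) with hx
      have hxm : StrictMono x := (R.orderEmbOfFin hn).strictMono
      have hxR : ∀ i, x i ∈ R := fun i => R.orderEmbOfFin_mem hn i
      have hxsurj : ∀ w ∈ R, ∃ i, x i = w := by
        intro w hw
        have : w ∈ Set.range (R.orderEmbOfFin hn) := by
          rw [range_orderEmbOfFin]; exact hw
        exact this
      have hsep : ∀ i j, (7 / 10 : ℝ) ≤ |x i - (x j + (α + 7 / 10))| := by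
        intro i j
        have h1 := hRsep _ (hxR i) _ (hxR j)
        rw [not_and_or, not_lt, not_lt] at h1
        rcases h1 with h1 | h1
        · rw [abs_of_nonpos (by linarith)]; linarith
        · rw [abs_of_nonneg (by linarith)]; linarith
      have hroom := hG n x hxm (7 / 10) (α + 7 / 10) Λ (by norm_num) (by linarith)
        (hU _ (hRU (hxR 0))).1 (hU _ (hRU (hxR _))).2 hsep
      have hadj : ∀ i : Fin n, Adj R (x i.castSucc) (x i.succ) := by
        intro i
        have hlt : x i.castSucc < x i.succ := hxm (Fin.castSucc_lt_succ)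
        refine ⟨hxR _, hxR _, hlt.ne, ?_⟩
        intro w hw
        obtain ⟨j, rfl⟩ := hxsurj w hw
        rcases le_or_gt j i.castSucc with h | h
        · have h1 : x j ≤ x i.castSucc := hxm.monotone h
          nlinarith
        · have h2 : i.succ ≤ j := by
            rw [Fin.le_iff_val_le_val]
            have := Fin.lt_def.1 h
            simp at this ⊢
            omega
          have h3 : x i.succ ≤ x j := hxm.monotone h2
          nlinarith
      set G : ℝ × ℝ → ℝ := fun p =>
        2 * Real.sinc (Real.pi * (199 / 200 * (p.1 - p.2))) * c p.1 p.2 - c p.1 p.2 ^ 2 with hGd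
      have hsumprod : ∑ u ∈ U, ∑ v ∈ U,
          (2 * Real.sinc (Real.pi * (199 / 200 * (u - v))) * c u v - c u v ^ 2) =
          ∑ p ∈ U ×ˢ U, G p := by rw [sum_product]
      rw [hsumprod]
      set J := (univ : Finset (Fin n)).image (fun i => (x i.castSucc, x i.succ)) with hJ
      set J' := (univ : Finset (Fin n)).image (fun i => (x i.succ, x i.castSucc)) with hJ'
      have hdisj : Disjoint J J' := by
        rw [disjoint_left]
        intro p hp hp'
        obtain ⟨i, _, rfl⟩ := mem_image.1 hp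
        obtain ⟨j, _, hj⟩ := mem_image.1 hp'
        have e1 : x j.succ = x i.castSucc := congrArg Prod.fst hj
        have e2 : x j.castSucc = x i.succ := congrArg Prod.snd hj
        have e3 : x i.castSucc < x i.succ := hxm (Fin.castSucc_lt_succ)
        have e4 : x j.castSucc < x j.succ := hxm (Fin.castSucc_lt_succ)
        linarith
      have hsub : J ∪ J' ⊆ U ×ˢ U := by
        intro p hp
        rcases mem_union.1 hp with hp | hp
        · obtain ⟨i, _, rfl⟩ := mem_image.1 hp
          exact mem_product.2 ⟨hRU (hxR _), hRU (hxR _)⟩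
        · obtain ⟨i, _, rfl⟩ := mem_image.1 hp
          exact mem_product.2 ⟨hRU (hxR _), hRU (hxR _)⟩
      have hlow : ∑ i : Fin n, (G (x i.castSucc, x i.succ) + G (x i.succ, x i.castSucc)) ≤
          ∑ p ∈ U ×ˢ U, G p := by
        calc ∑ i : Fin n, (G (x i.castSucc, x i.succ) + G (x i.succ, x i.castSucc))
            = ∑ p ∈ J ∪ J', G p := by
              rw [sum_union hdisj, hJ, hJ', sum_image, sum_image, sum_add_distrib]
              · intro i _ j _ hij
                exact Fin.succ_injective _ (hxm.injective (congrArg Prod.fst hij))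
              · intro i _ j _ hij
                exact Fin.succ_injective _ (hxm.injective (congrArg Prod.snd hij))
          _ ≤ ∑ p ∈ U ×ˢ U, G p :=
              sum_le_sum_of_subset_of_nonneg hsub fun p _ _ => hterm p.1 p.2
      have hG2 : ∀ i : Fin n, G (x i.castSucc, x i.succ) + G (x i.succ, x i.castSucc) =
          psi (Real.sinc (Real.pi * (199 / 200 * (x i.succ - x i.castSucc)))) := by
        intro i
        simp only [hGd, hc]
        rw [if_pos (hadj i), if_pos (hadj i).symm, hsym (x i.succ) (x i.castSucc),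
          ← clamp_gain]
        ring
      have hkey : ∀ i : Fin n, 1 - 199 / 200 * (947 / 1000 * phi (7 / 10) (x i.succ - x i.castSucc) +
          9 / 50 * (x i.succ - x i.castSucc)) ≤
          psi (Real.sinc (Real.pi * (199 / 200 * (x i.succ - x i.castSucc)))) := by
        intro i
        have h1 : 0 < x i.succ - x i.castSucc := sub_pos.2 (hxm (Fin.castSucc_lt_succ))
        have h2 := hK (199 / 200 * (x i.succ - x i.castSucc)) (by positivity)
        rw [phi_scale] at h2
        linarith
      have htel : ∑ i : Fin n, (x i.succ - x i.castSucc) ≤ Λ := by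
        have h1 : ∑ i : Fin n, (x i.succ - x i.castSucc) = x (Fin.last n) - x 0 := by
          have e1 := Fin.sum_univ_succ x
          have e2 := Fin.sum_univ_castSucc x
          rw [sum_sub_distrib]
          linarith
        rw [h1]
        have h2 := (hU _ (hRU (hxR (Fin.last n)))).2
        have h3 := (hU _ (hRU (hxR 0))).1
        linarith
      have hlin : ∀ f t : Fin n → ℝ, (n : ℝ) - 199 / 200 * (947 / 1000 * (∑ i, f i) +
          9 / 50 * ∑ i, t i) = ∑ i, (1 - 199 / 200 * (947 / 1000 * f i + 9 / 50 * t i)) := by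
        intro f t
        rw [sum_sub_distrib, ← mul_sum, sum_add_distrib, ← mul_sum, ← mul_sum]
        simp
      have hfin : (n : ℝ) - 199 / 200 * (947 / 1000 * ((Λ + (α + 7 / 10)) / 2) + 9 / 50 * Λ) ≤
          ∑ p ∈ U ×ˢ U, G p := by
        refine le_trans ?_ hlow
        calc (n : ℝ) - 199 / 200 * (947 / 1000 * ((Λ + (α + 7 / 10)) / 2) + 9 / 50 * Λ)
            ≤ (n : ℝ) - 199 / 200 * (947 / 1000 * (∑ i : Fin n, phi (7 / 10) (x i.succ - x i.castSucc)) +
              9 / 50 * ∑ i : Fin n, (x i.succ - x i.castSucc)) := by linarith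
          _ = ∑ i : Fin n, (1 - 199 / 200 * (947 / 1000 * phi (7 / 10) (x i.succ - x i.castSucc) +
              9 / 50 * (x i.succ - x i.castSucc))) := by
              exact hlin (fun i => phi (7 / 10) (x i.succ - x i.castSucc))
                (fun i => x i.succ - x i.castSucc)
          _ ≤ _ := sum_le_sum fun i _ => by rw [hG2 i]; exact hkey i
      have hn2 : (R.card : ℝ) = n + 1 := by exact_mod_cast hn
      rw [hn2] at hcardR
      linarith

/-- Disjoint open windows add up. -/
theorem windows_to_interval {ι : Type*} (P : Finset ι) (d : ι → ℝ) {K T : ℝ} (hK : 0 ≤ K)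
    (h : ∀ α, 0 ≤ α → α ≤ T → K ≤ ((P.filter (fun p => α < d p ∧ d p < α + 7 / 5)).card : ℝ))
    {a b : ℝ} (ha : 0 ≤ a) (hab : a + 7 / 5 ≤ b) (hb : b ≤ T) :
    K * ((b - a) / (14 / 5)) ≤ ((P.filter (fun p => a ≤ d p ∧ d p ≤ b)).card : ℝ) := by
  classical
  set y := (b - a) / (7 / 5) with hy
  have hy1 : 1 ≤ y := by rw [hy, le_div_iff₀ (by norm_num)]; linarith
  set k := ⌊y⌋₊ with hk
  have hk1 : (k : ℝ) ≤ y := Nat.floor_le (by linarith)
  have hk2 : y < k + 1 := Nat.lt_floor_add_one y
  have hk3 : 1 ≤ k := Nat.le_floor (by simpa using hy1)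
  have hk4 : y / 2 ≤ k := by
    have : (1 : ℝ) ≤ k := by exact_mod_cast hk3
    linarith
  have hyk : 7 / 5 * (k : ℝ) ≤ b - a := by
    have : y * (7 / 5) = b - a := by rw [hy]; field_simp
    nlinarith
  have hdis : Set.PairwiseDisjoint (↑(range k) : Set ℕ)
      (fun j : ℕ => P.filter (fun p => a + 7 / 5 * j < d p ∧ d p < a + 7 / 5 * j + 7 / 5)) := by
    intro i _ j _ hij
    rw [Function.onFun, disjoint_left]
    intro p hp hp'
    have h1 := (mem_filter.1 hp).2
    have h2 := (mem_filter.1 hp').2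
    rcases lt_or_gt_of_ne hij with h3 | h3
    · have : (i : ℝ) + 1 ≤ j := by exact_mod_cast h3
      linarith [h1.2, h2.1]
    · have : (j : ℝ) + 1 ≤ i := by exact_mod_cast h3
      linarith [h1.1, h2.2]
  have hsub : (range k).biUnion
      (fun j : ℕ => P.filter (fun p => a + 7 / 5 * j < d p ∧ d p < a + 7 / 5 * j + 7 / 5)) ⊆
      P.filter (fun p => a ≤ d p ∧ d p ≤ b) := by
    intro p hp
    obtain ⟨j, hj, hp⟩ := mem_biUnion.1 hp
    have h1 := (mem_filter.1 hp).2
    have hj : (j : ℝ) + 1 ≤ k := by exact_mod_cast mem_range.1 hj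
    have hj0 : (0 : ℝ) ≤ j := Nat.cast_nonneg j
    refine mem_filter.2 ⟨(mem_filter.1 hp).1, by linarith [h1.1], ?_⟩
    linarith [h1.2]
  calc K * ((b - a) / (14 / 5)) = K * (y / 2) := by rw [hy]; ring
    _ ≤ K * k := by gcongr
    _ = ∑ _j ∈ range k, K := by rw [sum_const, card_range, nsmul_eq_mul, mul_comm]
    _ ≤ ∑ j ∈ range k, ((P.filter
        (fun p => a + 7 / 5 * (j : ℝ) < d p ∧ d p < a + 7 / 5 * j + 7 / 5)).card : ℝ) := by
        apply sum_le_sum
        intro j hj
        have hj : (j : ℝ) + 1 ≤ k := by exact_mod_cast mem_range.1 hj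
        have hj0 : (0 : ℝ) ≤ j := Nat.cast_nonneg j
        exact h (a + 7 / 5 * j) (by positivity) (by linarith)
    _ = (((range k).biUnion (fun j : ℕ =>
        P.filter (fun p => a + 7 / 5 * j < d p ∧ d p < a + 7 / 5 * j + 7 / 5))).card : ℝ) := by
        rw [card_biUnion hdis]
        push_cast
        rfl
    _ ≤ _ := by exact_mod_cast card_le_card hsub

end Pool.Agent.Helper49.HM
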