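import Pool.Agent.Helper49.HM.Win
import Pool.Agent.Helper6.HM.Gaps
import Pool.Agent.Helper6.HM.Key
/-!
# HM block P: final form
-/
set_option autoImplicit false
namespace Pool.Agent.Helper49.HM
open Finset

/-- The combinatorial part: pairs in the open window `(α, α + 7/5)`. -/
theorem window_comb (U : Finset ℝ) {Λ α : ℝ} (hΛ : 0 ≤ Λ) (hα : 0 ≤ α)
    (hU : ∀ u ∈ U, 0 ≤ u ∧ u ≤ Λ) :
    ∃ c : ℝ → ℝ → ℝ, (∀ u v, c u v = c v u) ∧ (∀ u, c u u = 0) ∧ (∀ u ∈ U, ∑ v ∈ U, |c u v| ≤ 1) ∧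
      (U.card : ℝ) - ((U ×ˢ U).filter (fun p => α < p.1 - p.2 ∧ p.1 - p.2 < α + 7 / 5)).card
        - 199 / 200 * (1307 / 2000) * (Λ + α + 7 / 10) - 1
        ≤ ∑ u ∈ U, ∑ v ∈ U, (2 * Real.sinc (Real.pi * (199 / 200 * (u - v))) * c u v - c u v ^ 2) :=
  window_comb_aux (fun _ x hx _ _ _ hH ha h0 h1 hsep => Pool.Agent.Helper6.HM.gaps_room x hx hH ha h0 h1 hsep)
    (fun _ ht => Pool.Agent.Helper6.HM.key_ineq ht) U hΛ hα hU

end Pool.Agent.Helper49.HM
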