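import Pool.Agent.Helper49.HM.Win2
import Pool.Agent.Helper6.HM.Gaps
/-!
# HM block P with parameters: final form
-/
set_option autoImplicit false
namespace Pool.Agent.Helper49.HM
open Finset Pool.Agent.Helper6.HM

/-- The combinatorial part: pairs in the open window `(α, α + 2H)`. -/
theorem window_comb' {H th lam mu : ℝ} (hH : 0 < H) (hth : 0 < th) (hlam : 0 ≤ lam) (hmu : 0 ≤ mu)
    (hK : ∀ t : ℝ, 0 < t →
      1 - psi (Real.sinc (Real.pi * t)) ≤ lam * phi (th * H) t + mu * t)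
    (U : Finset ℝ) {Λ α : ℝ} (hΛ : 0 ≤ Λ) (hα : 0 ≤ α) (hU : ∀ u ∈ U, 0 ≤ u ∧ u ≤ Λ) :
    ∃ c : ℝ → ℝ → ℝ, (∀ u v, c u v = c v u) ∧ (∀ u, c u u = 0) ∧ (∀ u ∈ U, ∑ v ∈ U, |c u v| ≤ 1) ∧
      (U.card : ℝ) - ((U ×ˢ U).filter (fun p => α < p.1 - p.2 ∧ p.1 - p.2 < α + 2 * H)).card
        - th * (lam / 2 + mu) * (Λ + α + H) - 1
        ≤ ∑ u ∈ U, ∑ v ∈ U, (2 * Real.sinc (Real.pi * (th * (u - v))) * c u v - c u v ^ 2) :=
  window_comb_gen hH hth hlam hmu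
    (fun _ x hx _ _ _ hH ha h0 h1 hsep => gaps_room x hx hH ha h0 h1 hsep) hK U hΛ hα hU

end Pool.Agent.Helper49.HM
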